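import Pool.Agent.VX.E.Prop
import Pool.Agent.VX.E.Var
import Pool.Agent.VX.K.Defs
import Pool.Agent.VX.G.LDer

/-! VX block H, part H4 (leading coefficients at the conifold point): definitions.

`Rc = C[t]((s))`; `xi = 2 s t`, `u = 3 s^2 (1 + t^2)`, `12 s^2 = 4 u - 3 xi^2`.  The structure `Br` lists the properties of the
derivations `D`, `d` (written `d'` in VX_H.md) and of the functionals `b l` (written `brk_l` in VX_H.md) that are used here. -/

namespace Pool.Agent.VX.H4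

noncomputable section

open PowerSeries Finset Pool.Agent.VX.E

/-- Laurent series in `s` with coefficients in `C[t]` -/
abbrev Rc : Type := LaurentSeries (Polynomial ℂ)

/-- the scalars -/
def cs : ℂ →+* Rc := (HahnSeries.C : Polynomial ℂ →+* Rc).comp Polynomial.C

/-- `xi = 2 s t` -/
def xi : Rc := HahnSeries.single 1 (2 * Polynomial.X)

/-- `u = 3 s^2 (1 + t^2)` -/
def uu : Rc := HahnSeries.single 2 (3 * (1 + Polynomial.X ^ 2))

/-- `12 s^2` -/
def s12 : Rc := HahnSeries.single 2 12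

/-- the derivations `D`, `d` and the functionals `b l` of the conifold ring -/
structure Br where
  D : G.QDer Rc
  d : G.QDer Rc
  b : ℤ → Rc →+ ℂ
  /-- the coefficient of `s^n` in `D f` depends on the coefficient of `s^(n+1)` in `f` only -/
  Dn : ℤ → Polynomial ℂ →+ Polynomial ℂ
  hD : ∀ (f : Rc) (n : ℤ), (D f).coeff n = Dn n (f.coeff (n + 1))
  comm : ∀ a, d (D a) = D (d a)
  D_cs : ∀ c, D (cs c) = 0
  d_cs : ∀ c, d (cs c) = 0
  D_xi : D xi = 1
  D_u : D uu = 0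
  d_xi : d xi = 0
  d_u : d uu = 1
  b_cs : ∀ (l : ℤ) (c : ℂ) (f : Rc), b l (cs c * f) = c * b l f
  /-- `b l f` depends on the coefficient of `s^(2l-1)` in `f` only -/
  b_loc : ∀ (l : ℤ) (f g : Rc), f.coeff (2 * l - 1) = g.coeff (2 * l - 1) → b l f = b l g
  V1 : ∀ (l : ℤ) (f : Rc), b l (D f) = 0
  V2 : ∀ (l : ℤ) (f : Rc), l ≠ -1 → b (l + 1) (uu * f) = b l f
  V3 : ∀ (l : ℤ) (f : Rc), l ≠ 0 → b (l - 1) (d f) = l * b l f
  V3z : ∀ f : Rc, b (-1) (d f) = b 0 f
  b_one : ∀ c : ℂ, b 0 (HahnSeries.single (-1) (Polynomial.C c)) = 2 * c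

/-- order `>= w` in `s` -/
def Fil (w : ℤ) (f : Rc) : Prop := ∀ n : ℤ, n < w → f.coeff n = 0

/-- weight `>= w`, where `s` has weight `1` and `h` has weight `2`: the coefficient of `h^k` has order `>= w - 2k` -/
def FilH (w : ℤ) (F : Rc⟦X⟧) : Prop := ∀ k : ℕ, Fil (w - 2 * k) (coeff k F)

/-- the part of weight `w` -/
def lead (w : ℤ) (F : Rc⟦X⟧) : Rc⟦X⟧ :=
  PowerSeries.mk fun k => HahnSeries.single (w - 2 * k) ((coeff k F).coeff (w - 2 * k))

/-- `1/(2 sqrt 3)` -/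
def c0 : ℂ := (2 * (Real.sqrt 3 : ℂ))⁻¹

/-- `i sqrt 3/2` -/
def kc : ℂ := Complex.I * (Real.sqrt 3 : ℂ) / 2

/-- the derivation `-i sqrt 3 d` -/
def del (B : Br) : G.QDer Rc := (-2 * cs kc) • B.d

theorem del_apply (B : Br) (f : Rc) : del B f = -2 * cs kc * B.d f := rfl

/-- the hypotheses on the data of the WKB problem in the form with `k = 1` -/
structure WD (B : Br) (dt : Dat B.D) : Prop where
  k1 : dt.k = 1
  w : Fil 3 (dt.w - 2 - HahnSeries.single 2 3)
  P : Fil (-1) dt.P0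
  P1 : dt.P0.coeff (-1) = Polynomial.C c0
  dw : Fil 1 (B.d dt.w - 1)

end

end Pool.Agent.VX.H4
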