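import Pool.Agent.VX.H4.Base

/-! VX-H4: the filtration by the order in `s`, and by the weight (`s` has weight `1`, `h` has weight `2`). -/

namespace Pool.Agent.VX.H4

noncomputable section

open PowerSeries Finset Pool.Agent.VX.E

theorem Fil_zero (w : ℤ) : Fil w 0 := fun _ _ => HahnSeries.coeff_zero

theorem Fil_add {w : ℤ} {f g : Rc} (hf : Fil w f) (hg : Fil w g) : Fil w (f + g) := by
  intro n hn
  rw [HahnSeries.coeff_add, hf n hn, hg n hn, add_zero]

theorem Fil_neg {w : ℤ} {f : Rc} (hf : Fil w f) : Fil w (-f) := by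
  intro n hn
  rw [HahnSeries.coeff_neg, hf n hn, neg_zero]

theorem Fil_sub {w : ℤ} {f g : Rc} (hf : Fil w f) (hg : Fil w g) : Fil w (f - g) := by
  rw [sub_eq_add_neg]
  exact Fil_add hf (Fil_neg hg)

theorem Fil_mono {v w : ℤ} (h : v ≤ w) {f : Rc} (hf : Fil w f) : Fil v f := fun n hn => hf n (lt_of_lt_of_le hn h)

theorem Fil_mul {v w : ℤ} {f g : Rc} (hf : Fil v f) (hg : Fil w g) : Fil (v + w) (f * g) := by
  intro n hn
  rw [HahnSeries.coeff_mul]
  refine Finset.sum_eq_zero fun ij hij => ?_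
  have h := (Finset.mem_antidiagonal.1 hij).2.2
  rcases lt_or_ge ij.1 v with h1 | h1
  · rw [hf _ h1, zero_mul]
  · rw [hg ij.2 (by omega), mul_zero]

private theorem rc_smul (q : ℚ) (f : Rc) : q • f = algebraMap ℚ Rc q * f := by
  have h := @map_rat_smul Rc Rc _ _ HahnSeries.instModule Algebra.toModule (Rc →+ Rc) _ _ (AddMonoidHom.id Rc) q f
  rw [Algebra.smul_def] at h
  exact h

private theorem Fil_rat' (q : ℚ) : Fil 0 (algebraMap ℚ Rc q) := by
  have h := rc_smul q 1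
  rw [mul_one] at h
  rw [← h]
  intro n hn
  have h1 : (q • (1 : Rc)).coeff n = q • (1 : Rc).coeff n := rfl
  have h2 : (1 : Rc).coeff n = 0 := HahnSeries.coeff_single_of_ne (ne_of_lt hn)
  rw [h1, h2, smul_zero]

private theorem coeff_qsmul (q : ℚ) (G : Rc⟦X⟧) (k : ℕ) : coeff k (q • G) = algebraMap ℚ Rc q * coeff k G := by
  rw [Algebra.smul_def, PowerSeries.algebraMap_apply, coeff_C_mul]

private theorem coeff_cd (B : Br) (G : Rc⟦X⟧) (k : ℕ) : coeff k (cder B.D G) = B.D (coeff k G) := by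
  show coeff k (PowerSeries.mk fun n => B.D (coeff n G)) = _
  rw [coeff_mk]

theorem Fil_smul {w : ℤ} (q : ℚ) {f : Rc} (hf : Fil w f) : Fil w (q • f) := by
  rw [rc_smul]
  have h := Fil_mul (Fil_rat' q) hf
  rwa [zero_add] at h

theorem Fil_rat (q : ℚ) : Fil 0 (algebraMap ℚ Rc q) := Fil_rat' q

theorem Fil_single (n : ℤ) (q : Polynomial ℂ) : Fil n (HahnSeries.single n q) := fun _ hm =>
  HahnSeries.coeff_single_of_ne (ne_of_lt hm)

theorem Fil_sum {ι : Type} {w : ℤ} (s : Finset ι) (f : ι → Rc) (hf : ∀ i ∈ s, Fil w (f i)) :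
    Fil w (∑ i ∈ s, f i) := by
  classical
  induction s using Finset.induction_on with
  | empty =>
    rw [Finset.sum_empty]
    exact Fil_zero w
  | insert i s hi ih =>
    rw [Finset.sum_insert hi]
    exact Fil_add (hf i (Finset.mem_insert_self i s)) (ih fun j hj => hf j (Finset.mem_insert_of_mem hj))

/-- the lowest coefficient of a product -/
theorem Fil_mul_coeff {v w : ℤ} {f g : Rc} (hf : Fil v f) (hg : Fil w g) :
    (f * g).coeff (v + w) = f.coeff v * g.coeff w := by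
  rw [HahnSeries.coeff_mul, Finset.sum_eq_single (v, w)]
  · intro ij hij hne
    have h := (Finset.mem_antidiagonal.1 hij).2.2
    rcases lt_trichotomy ij.1 v with h1 | h1 | h1
    · rw [hf _ h1, zero_mul]
    · exact absurd (Prod.ext h1 (by omega)) hne
    · rw [hg ij.2 (by omega), mul_zero]
  · intro hn
    by_cases h1 : f.coeff v = 0
    · rw [h1, zero_mul]
    by_cases h2 : g.coeff w = 0
    · rw [h2, mul_zero]
    exact absurd (Finset.mem_antidiagonal.2 ⟨h1, h2, rfl⟩) hn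

theorem Fil_D (B : Br) {w : ℤ} {f : Rc} (hf : Fil w f) : Fil (w - 1) (B.D f) := by
  intro n hn
  rw [B.hD, hf (n + 1) (by omega), map_zero]

theorem Fil_Dit (B : Br) {w : ℤ} {f : Rc} (hf : Fil w f) (a : ℕ) : Fil (w - a) ((B.D)^[a] f) := by
  induction a with
  | zero =>
    have e : w - ((0 : ℕ) : ℤ) = w := by simp
    rw [e]
    exact hf
  | succ a ih =>
    rw [Function.iterate_succ_apply']
    have e : w - ((a + 1 : ℕ) : ℤ) = w - a - 1 := by push_cast; ring
    rw [e]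
    exact Fil_D B ih

theorem FilH_zero (w : ℤ) : FilH w 0 := by
  intro k
  rw [map_zero]
  exact Fil_zero _

theorem FilH_one : FilH 0 1 := by
  intro k
  rw [coeff_one]
  split_ifs with h
  · subst h
    exact Fil_single 0 1
  · exact Fil_zero _

theorem FilH_add {w : ℤ} {F G : Rc⟦X⟧} (hF : FilH w F) (hG : FilH w G) : FilH w (F + G) := by
  intro k
  rw [map_add]
  exact Fil_add (hF k) (hG k)

theorem FilH_neg {w : ℤ} {F : Rc⟦X⟧} (hF : FilH w F) : FilH w (-F) := by
  intro k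
  rw [map_neg]
  exact Fil_neg (hF k)

theorem FilH_sub {w : ℤ} {F G : Rc⟦X⟧} (hF : FilH w F) (hG : FilH w G) : FilH w (F - G) := by
  intro k
  rw [map_sub]
  exact Fil_sub (hF k) (hG k)

theorem FilH_mono {v w : ℤ} (h : v ≤ w) {F : Rc⟦X⟧} (hF : FilH w F) : FilH v F := fun k =>
  Fil_mono (sub_le_sub_right h _) (hF k)

theorem FilH_mul {v w : ℤ} {F G : Rc⟦X⟧} (hF : FilH v F) (hG : FilH w G) : FilH (v + w) (F * G) := by
  intro k
  rw [coeff_mul]
  refine Fil_sum _ _ fun a ha => ?_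
  rw [Finset.HasAntidiagonal.mem_antidiagonal] at ha
  have e : v + w - 2 * (k : ℤ) = (v - 2 * a.1) + (w - 2 * a.2) := by
    rw [← ha]
    push_cast
    ring
  rw [e]
  exact Fil_mul (hF a.1) (hG a.2)

theorem FilH_smul {w : ℤ} (q : ℚ) {F : Rc⟦X⟧} (hF : FilH w F) : FilH w (q • F) := by
  intro k
  rw [coeff_qsmul]
  have h := Fil_mul (Fil_rat' q) (hF k)
  rwa [zero_add] at h

theorem FilH_C {w : ℤ} {a : Rc} (ha : Fil w a) : FilH w (C a) := by
  intro k
  rw [coeff_C]
  split_ifs with h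
  · subst h
    have e : w - 2 * ((0 : ℕ) : ℤ) = w := by simp
    rw [e]
    exact ha
  · exact Fil_zero _

theorem FilH_X {w : ℤ} {F : Rc⟦X⟧} (hF : FilH w F) : FilH (w + 2) (X * F) := by
  intro k
  match k with
  | 0 =>
    rw [coeff_zero_X_mul]
    exact Fil_zero _
  | k + 1 =>
    rw [coeff_succ_X_mul]
    have e : w + 2 - 2 * ((k + 1 : ℕ) : ℤ) = w - 2 * k := by push_cast; ring
    rw [e]
    exact hF k

theorem FilH_X2 {w : ℤ} {F : Rc⟦X⟧} (hF : FilH w F) : FilH (w + 4) (X ^ 2 * F) := by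
  have e : X ^ 2 * F = X * (X * F) := by ring
  have e2 : w + 4 = w + 2 + 2 := by ring
  rw [e, e2]
  exact FilH_X (FilH_X hF)

theorem FilH_cder (B : Br) {w : ℤ} {F : Rc⟦X⟧} (hF : FilH w F) : FilH (w - 1) (cder B.D F) := by
  intro k
  have e : w - 1 - 2 * (k : ℤ) = w - 2 * k - 1 := by ring
  rw [e, coeff_cd]
  exact Fil_D B (hF k)

/-- the expansion of the shift up to weight `3` -/
theorem FilH_sh3 (B : Br) (c : ℚ) {w : ℤ} {F : Rc⟦X⟧} (hF : FilH w F) :
    FilH (w + 3) (sh B.D c F - (F + c • (X * cder B.D F) + (c ^ 2 / 2) • (X ^ 2 * cder B.D (cder B.D F)))) := by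
  have hc : ∀ (G : Rc⟦X⟧) (k : ℕ), coeff k (cder B.D G) = B.D (coeff k G) := fun G k => coeff_cd B G k
  intro n
  have hs : coeff n (sh B.D c F) = ∑ k ∈ range (n + 1),
      algebraMap ℚ Rc (c ^ k / (k.factorial : ℚ)) * (B.D^[k] (coeff (n - k) F)) := by
    rw [sh, coeff_mk, Finset.Nat.sum_antidiagonal_eq_sum_range_succ_mk]
    exact Finset.sum_congr rfl fun k _ => Algebra.smul_def _ _
  rw [map_sub, map_add, map_add, coeff_qsmul, coeff_qsmul, hs]
  match n with
  | 0 =>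
    have e2 : coeff 0 (X ^ 2 * cder B.D (cder B.D F)) = 0 := by
      rw [pow_two, mul_assoc, coeff_zero_X_mul]
    rw [coeff_zero_X_mul, e2]
    simp only [zero_add, Finset.sum_range_one, pow_zero, Nat.factorial_zero, Nat.cast_one, div_one, map_one, one_mul,
      Function.iterate_zero, id_eq, mul_zero, add_zero, sub_self]
    exact Fil_zero _
  | 1 =>
    have e2 : coeff 1 (X ^ 2 * cder B.D (cder B.D F)) = 0 := by
      rw [pow_two, mul_assoc, coeff_succ_X_mul, coeff_zero_X_mul]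
    have e1 : coeff 1 (X * cder B.D F) = B.D (coeff 0 F) := by
      rw [coeff_succ_X_mul 0, hc]
    rw [e1, e2, Finset.sum_range_succ, Finset.sum_range_one]
    have e3 : algebraMap ℚ Rc (c ^ 0 / ((0 : ℕ).factorial : ℚ)) * (B.D^[0] (coeff (1 - 0) F)) +
        algebraMap ℚ Rc (c ^ 1 / ((1 : ℕ).factorial : ℚ)) * (B.D^[1] (coeff (1 - 1) F)) -
        (coeff 1 F + algebraMap ℚ Rc c * B.D (coeff 0 F) + algebraMap ℚ Rc (c ^ 2 / 2) * (0 : Rc)) = 0 := by
      simp
    rw [e3]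
    exact Fil_zero _
  | m + 2 =>
    have e1 : coeff (m + 2) (X * cder B.D F) = B.D (coeff (m + 1) F) := by
      rw [coeff_succ_X_mul (m + 1), hc]
    have e2 : coeff (m + 2) (X ^ 2 * cder B.D (cder B.D F)) = B.D (B.D (coeff m F)) := by
      rw [coeff_X_pow_mul, hc, hc]
    rw [e1, e2, Finset.sum_range_succ', Finset.sum_range_succ', Finset.sum_range_succ']
    have e3 : ∀ S : Rc, S + algebraMap ℚ Rc (c ^ (0 + 1 + 1) / ((0 + 1 + 1 : ℕ).factorial : ℚ)) *
          (B.D^[0 + 1 + 1] (coeff (m + 2 - (0 + 1 + 1)) F)) +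
        algebraMap ℚ Rc (c ^ (0 + 1) / ((0 + 1 : ℕ).factorial : ℚ)) * (B.D^[0 + 1] (coeff (m + 2 - (0 + 1)) F)) +
        algebraMap ℚ Rc (c ^ 0 / ((0 : ℕ).factorial : ℚ)) * (B.D^[0] (coeff (m + 2 - 0) F)) -
        (coeff (m + 2) F + algebraMap ℚ Rc c * B.D (coeff (m + 1) F) +
          algebraMap ℚ Rc (c ^ 2 / 2) * B.D (B.D (coeff m F))) = S := by
      intro S
      have f1 : m + 2 - (0 + 1 + 1) = m := by omega
      have f2 : m + 2 - (0 + 1) = m + 1 := by omega
      rw [f1, f2, Nat.sub_zero]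
      simp only [Nat.factorial, Function.iterate_succ, Function.iterate_zero, Function.comp_apply, id_eq, zero_add,
        pow_one, pow_zero, mul_one, Nat.cast_one, div_one, map_one, one_mul]
      norm_num
      ring
    rw [e3]
    refine Fil_sum _ _ fun k hk => ?_
    have hk' := Finset.mem_range.1 hk
    have h1 := Fil_mul (Fil_rat' (c ^ (k + 1 + 1 + 1) / ((k + 1 + 1 + 1 : ℕ).factorial : ℚ)))
      (Fil_Dit B (hF (m + 2 - (k + 1 + 1 + 1))) (k + 1 + 1 + 1))
    refine Fil_mono ?_ h1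
    have e4 : ((m + 2 - (k + 1 + 1 + 1) : ℕ) : ℤ) = (m : ℤ) + 2 - (k + 3) := by
      omega
    rw [e4]
    push_cast
    linarith

end

end Pool.Agent.VX.H4
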