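import Mathlib

/-! VX-H4: the polynomial identity behind the ladder relation. -/

namespace Pool.Agent.VX.H4

/-- with `A = 4u - 3x^2`, `A n^2 - h^2 (2 n n2 - n1^2) = 1`, `h^2 n3 = A n1 - 3 x n`, `4 c^2 = -3`, the element
`Z = 2 u n + 2 c h x n1 - h^2 n2` satisfies `(A - 8 c h) Z^2 - h^2 (2 Z Z2 - Z1^2) = 4 (u - c h)^2` -/
theorem lad_alg {R : Type} [CommRing R] (u x c h n n1 n2 n3 : R) (hc : 4 * c ^ 2 = -3)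
    (hE : (4 * u - 3 * x ^ 2) * n ^ 2 - h ^ 2 * (2 * n * n2 - n1 ^ 2) = 1)
    (hT : h ^ 2 * n3 = (4 * u - 3 * x ^ 2) * n1 - 3 * x * n) :
    (4 * (u - 2 * c * h) - 3 * x ^ 2) * (2 * u * n + 2 * c * h * x * n1 - h ^ 2 * n2) ^ 2 -
      h ^ 2 * (2 * (2 * u * n + 2 * c * h * x * n1 - h ^ 2 * n2) *
        ((-2 * u + 4 * c * h + 3 * x ^ 2) * n2 + 2 * c * h * x * n3 + 9 * x * n1 + 3 * n) -
        ((-2 * u + 2 * c * h + 3 * x ^ 2) * n1 + 2 * c * h * x * n2 + 3 * x * n) ^ 2) = 4 * (u - c * h) ^ 2 := by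
  linear_combination (-4 * c * h * x * (2 * u * n + 2 * c * h * x * n1 - h ^ 2 * n2)) * hT +
    4 * (u - c * h) ^ 2 * hE +
    (-4 * u * x ^ 2 * h ^ 2 * n1 ^ 2 - 16 * u * x * h ^ 2 * n * n1 - 4 * u * h ^ 2 * n ^ 2 +
      3 * x ^ 4 * h ^ 2 * n1 ^ 2 + 6 * x ^ 3 * h ^ 2 * n * n1 - 8 * x ^ 2 * c * h ^ 3 * n1 ^ 2 +
      x ^ 2 * h ^ 4 * n2 ^ 2 + 3 * x ^ 2 * h ^ 2 * n ^ 2 + 6 * x * h ^ 4 * n1 * n2 + 2 * h ^ 4 * n * n2) * hc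

end Pool.Agent.VX.H4
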